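import Pool.Agent.H10.IEP.Targets

/-!
# MP_e37c09_lc: module NP
-/

open Ordinal Cardinal Order Set
open scoped ZFSet

universe u

namespace Pool.Agent.H38.IEP

open _root_.HD Pool.Agent.H10.IEP

theorem pf_NP (hKD : T_KD.{u}) (hVC : T_VC.{u}) : T_NP.{u} := by
  intro D hD
  have hal : ℵ₀ < D := hD.2.2.1
  have hreg : (succ D).IsRegular := Cardinal.isRegular_succ hal.le
  have hlt : D < succ D := Order.lt_succ D
  obtain ⟨C, hC, hin⟩ := hKD D (succ D) hD hreg hlt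
  have hC' : Clb (succ D).ord {x | x ∈ C ∧ D.ord < x} := by
    refine ⟨fun a ha => ?_, fun x hx h0 hlim => ?_⟩
    · obtain ⟨b, hb, hab, hbC⟩ := hC.unb (max a D.ord)
        (max_lt ha (Cardinal.ord_lt_ord.2 hlt))
      exact ⟨b, hb, (le_max_left _ _).trans_lt hab, hbC, (le_max_right _ _).trans_lt hab⟩
    · refine ⟨hC.cls x hx h0 fun y hy => ?_, ?_⟩
      · obtain ⟨z, hz, hyz, hzC⟩ := hlim y hy
        exact ⟨z, hz, hyz, hzC.1⟩
      · obtain ⟨z, hz, -, hzC⟩ := hlim 0 h0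
        exact hzC.2.trans hz
  have hcof : ℵ₀ < (succ D).ord.cof := by
    rw [hreg.cof_ord]
    exact hal.trans hlt
  obtain ⟨b, hb, hbC, -, hcf⟩ := hVC ℵ₀ (succ D).ord Cardinal.isRegular_aleph0 hcof _ hC'
  refine ⟨b, hbC.2, hb, Cardinal.ord_injective hcf, ?_⟩
  exact (hin b hbC.1 hb).2.1.2

end Pool.Agent.H38.IEP
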