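import Pool.Agent.H10.IEP.Targets

/-!
# MP_e37c09_lc: reflection below an extendible cardinal (module RQ)
-/

open Ordinal Cardinal Order Set
open scoped ZFSet

universe u

namespace Pool.Agent.H38.IEP

open _root_.HD Pool.Agent.H10.IEP

/-- `GoodP` gives `GoodQ`. -/
theorem goodQ_of_goodP {D : Cardinal.{u}} (h : GoodP D) (β : Ordinal.{u}) : GoodQ β D.ord := by
  obtain ⟨h1, h2, h3, h4⟩ := h
  refine ⟨⟨D, rfl, h1, h2, h3⟩, fun μ hμ hω κ _ hωκ hcf hκ f hf hfn hph => ?_⟩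
  have hcf' : κ.cof.ord = κ := hcf
  have hK : κ.cof.IsRegular := by
    refine ⟨?_, ?_⟩
    · have : ω ≤ κ.cof.ord := by rw [hcf']; exact hωκ
      exact Cardinal.omega0_le_ord.1 this
    · rw [hcf']
  have hDK : D < κ.cof := by
    have : D.ord < κ.cof.ord := by rw [hcf']; exact hκ
    exact Cardinal.ord_lt_ord.1 this
  have hod : OD f := by
    obtain ⟨N, _, hok, hden⟩ := hf
    exact od_iff_nm.2 ⟨N, hok, hden⟩
  refine h4 μ κ.cof hω hμ hK hDK f hod hfn ?_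
  rw [hcf']
  exact hph

theorem pf_RQ (hRP : T_RP.{u}) (hXA : T_XA.{u}) : T_RQ.{u} := by
  intro D hext hgood l hl
  -- step (ii)
  obtain ⟨η, hη, θ, j, hj⟩ := hXA D.ord hext D.ord
  have hδθ : D.ord < θ := (hη.trans hj.Jo_crit).trans (hj.Jo_lt hj.dlt)
  have hR : Loc.{u} fun v => v 2 ∈ v 0 ∧ v 0 ∈ v 1 ∧
      ((v 1).IsOrdinal ∧ (v 0).IsOrdinal ∧ GoodQ (v 1).rank (v 0).rank) := by
    refine (Loc.mem 2 0).and ((Loc.mem 0 1).and ?_)
    refine (hRP.ren (fun n => if n = 0 then 1 else 0)).congr fun v => ?_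
    simp
  have key := hj.trl_ex (R := fun x w => w 1 ∈ x ∧ x ∈ w 0 ∧
    ((w 0).IsOrdinal ∧ x.IsOrdinal ∧ GoodQ (w 0).rank x.rank)) hR
    [D.ord.toZFSet, l.toZFSet] (by
    intro x hx
    simp only [List.mem_cons, List.not_mem_nil, or_false] at hx
    rcases hx with rfl | rfl
    · exact Gd.ord.2 hj.dlt
    · exact Gd.ord.2 (hl.trans hj.dlt))
  have h1 := key.2 ⟨D.ord.toZFSet, Gd.ord.2 hδθ, by
    simp only [List.map_cons, List.map_nil, sv_cons_zero, sv_cons_succ]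
    refine ⟨?_, ?_, ?_, ZFSet.isOrdinal_toZFSet _, ?_⟩
    · rw [hj.fix l hl]
      exact toZFSet_mem_toZFSet_iff.2 hl
    · rw [hj.ord hj.dlt]
      exact toZFSet_mem_toZFSet_iff.2 (hη.trans hj.Jo_crit)
    · rw [hj.ord hj.dlt]
      exact ZFSet.isOrdinal_toZFSet _
    · rw [rank_toZFSet]
      exact goodQ_of_goodP hgood _⟩
  obtain ⟨x, -, hx1, hx2, -, hx3, hx4⟩ := h1
  have hl' : sv [D.ord.toZFSet, l.toZFSet] 1 = l.toZFSet := rfl
  have hd' : sv [D.ord.toZFSet, l.toZFSet] 0 = D.ord.toZFSet := rfl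
  rw [hl'] at hx1
  rw [hd'] at hx2 hx4
  obtain ⟨d, rfl⟩ := ord_of hx3
  rw [toZFSet_mem_toZFSet_iff] at hx1 hx2
  rw [rank_toZFSet, rank_toZFSet] at hx4
  obtain ⟨D', rfl, hreg, hsl, hal⟩ := hx4.1
  refine ⟨D', Cardinal.ord_lt_ord.1 hx2, hx1, hreg, hsl, hal, ?_⟩
  -- step (iii)
  intro μ K hωμ hμ hK hDK F hF hFn hph
  obtain ⟨N, hok, hden⟩ := od_iff_nm.1 hF
  obtain ⟨η', hη', θ', j', hj'⟩ := hXA D.ord hext (max N.a K.ord)
  have htr := hj'.trl hRP [D.ord.toZFSet, D'.ord.toZFSet] (by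
    intro x hx
    simp only [List.mem_cons, List.not_mem_nil, or_false] at hx
    rcases hx with rfl | rfl
    · exact Gd.ord.2 hj'.dlt
    · exact Gd.ord.2 (hx2.trans hj'.dlt))
  have h2 := htr.1 ⟨ZFSet.isOrdinal_toZFSet _, ZFSet.isOrdinal_toZFSet _, by
    simp only [sv_cons_zero, sv_cons_succ]
    rw [rank_toZFSet, rank_toZFSet]
    exact hx4⟩
  obtain ⟨-, -, h3⟩ := h2
  have e0 : (sv (List.map j' [D.ord.toZFSet, D'.ord.toZFSet]) 0) = (Jo j' D.ord).toZFSet :=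
    hj'.ord hj'.dlt
  have e1 : (sv (List.map j' [D.ord.toZFSet, D'.ord.toZFSet]) 1) = D'.ord.toZFSet :=
    hj'.fix _ hx2
  rw [e0, e1, rank_toZFSet, rank_toZFSet] at h3
  refine h3.2 μ hμ hωμ K.ord (((le_max_right _ _).trans_lt hη').trans hj'.Jo_crit)
    (Cardinal.omega0_le_ord.2 hK.aleph0_le) ?_ (Cardinal.ord_lt_ord.2 hDK)
    F ⟨N, ((le_max_left _ _).trans_lt hη').trans hj'.Jo_crit, hok, hden⟩ hFn hph
  show K.ord.cof.ord = K.ord
  rw [hK.cof_ord]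

end Pool.Agent.H38.IEP
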